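import Mathlib

namespace Pool.Agent.Results.MP_ca1982_an.Exists

open Set

/-- The unit square. -/
def Q : Set (ℝ × ℝ) := Icc 0 1 ×ˢ Icc 0 1

/-- The `l`-fold sumset `K + ⋯ + K`. -/
def sumset (l : ℕ) (K : Set (ℝ × ℝ)) : Set (ℝ × ℝ) :=
  {v | ∃ x : Fin l → ℝ × ℝ, (∀ i, x i ∈ K) ∧ v = ∑ i, x i}

def D (k : ℕ) : ℕ := 8 * (k + 1)

def H : ℕ → ℕ
  | 0 => 1
  | k + 1 => 2 * D k * H k * D k * D k

def q (k : ℕ) : ℕ := 2 * D k * H k

lemma D_cast (k : ℕ) : (D k : ℝ) = 8 * (k + 1) := by simp [D]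

lemma D_pos (k : ℕ) : (0 : ℝ) < D k := by rw [D_cast]; positivity

lemma D_ge (k : ℕ) : (8 : ℝ) ≤ D k := by
  rw [D_cast]; have : (0 : ℝ) ≤ k := Nat.cast_nonneg k; linarith

lemma H_ge (k : ℕ) : k + 1 ≤ H k := by
  induction k with
  | zero => simp [H]
  | succ k ih =>
    have h : 1 ≤ D k := by unfold D; omega
    calc k + 1 + 1 ≤ 2 * 1 * (k + 1) * 1 * 1 := by omega
      _ ≤ 2 * D k * H k * D k * D k := by gcongr

lemma H_pos (k : ℕ) : (0 : ℝ) < H k := by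
  have := H_ge k
  exact_mod_cast (by omega : 0 < H k)

lemma H_succ (k : ℕ) : (H (k + 1) : ℝ) = q k * D k * D k := by simp [H, q]

lemma q_cast (k : ℕ) : (q k : ℝ) = 2 * D k * H k := by simp [q]

lemma q_pos (k : ℕ) : (0 : ℝ) < q k := by
  rw [q_cast]; have := D_pos k; have := H_pos k; positivity

lemma half (k : ℕ) : 1 / (H (k + 1) : ℝ) ≤ 1 / H k / 2 := by
  rw [div_div]
  apply one_div_le_one_div_of_le (by have := H_pos k; positivity)
  rw [H_succ, q_cast]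
  have h1 := D_ge k
  have h2 := H_pos k
  have h3 : (1 : ℝ) ≤ D k * D k * D k := by
    have : (1 : ℝ) ≤ D k := by linarith
    calc (1 : ℝ) = 1 * 1 * 1 := by ring
      _ ≤ _ := by gcongr
  nlinarith

lemma anti : Antitone fun k => 1 / (H k : ℝ) := antitone_nat_of_succ_le fun k => by
  have h1 := half k
  have h2 : 0 < 1 / (H k : ℝ) := by have := H_pos k; positivity
  linarith

lemma small (r : ℝ) (hr : 0 < r) : ∃ k, 1 / (H k : ℝ) ≤ r := by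
  obtain ⟨k, hk⟩ := exists_nat_one_div_lt hr
  refine ⟨k, le_trans ?_ hk.le⟩
  apply one_div_le_one_div_of_le (by positivity)
  exact_mod_cast H_ge k

lemma scale (k : ℕ) {y : ℝ} (hy : |y| ≤ (k + 1) * (1 / H (k + 1))) : |q k * y| ≤ 1 / D k := by
  rw [abs_mul, abs_of_pos (q_pos k)]
  have h1 := q_pos k
  have h2 := D_pos k
  have h3 : ((k : ℝ) + 1) ≤ D k := by
    rw [D_cast]; have : (0 : ℝ) ≤ k := Nat.cast_nonneg k; linarith
  calc (q k : ℝ) * |y| ≤ q k * (D k * (1 / H (k + 1))) := by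
        gcongr
        refine hy.trans ?_
        have := H_pos (k + 1)
        gcongr
    _ = 1 / D k := by rw [H_succ]; field_simp

lemma step (p1 p2 a b θ : ℝ) (ha : |a| ≤ 1) (hb : |b| ≤ 1) (k : ℕ) (t : ℝ) :
    ∃ t', t ≤ t' ∧ t' + 1 / H (k + 1) ≤ t + 1 / H k ∧ (1 / (D k : ℝ) ≤ |a + k * b| →
      ∃ z : ℤ, ∀ s ∈ Icc t' (t' + 1 / H (k + 1)),
        |q k * (p1 + s * a + k * (p2 + s * b)) - θ - z| ≤ 1 / D k) := by
  have h1 := half k
  have h2 : 0 < 1 / (H k : ℝ) := by have := H_pos k; positivity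
  by_cases h : 1 / (D k : ℝ) ≤ |a + k * b|
  swap
  · exact ⟨t, le_rfl, by linarith, fun h' => absurd h' h⟩
  set σ := (q k : ℝ) * (a + k * b) with hσ
  set β := (q k : ℝ) * (p1 + k * p2) - θ with hβ
  have hD := D_pos k
  have hH := H_pos k
  have hσ1 : 2 * (H k : ℝ) ≤ |σ| := by
    rw [hσ, abs_mul, abs_of_pos (q_pos k)]
    calc 2 * (H k : ℝ) = q k * (1 / D k) := by rw [q_cast]; field_simp
      _ ≤ _ := by have := q_pos k; gcongr
  have key : ∃ (z : ℤ) (u : ℝ), 0 ≤ u ∧ u ≤ 1 / H k / 2 ∧ σ * (t + u) + β = z := by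
    have hb : ∀ d : ℝ, 0 ≤ d → d ≤ 1 → 0 ≤ d / |σ| ∧ d / |σ| ≤ 1 / H k / 2 := fun d h0 h1 =>
      ⟨div_nonneg h0 (abs_nonneg _), by
        rw [div_div]
        exact div_le_div₀ (by norm_num) h1 (by positivity) (by linarith)⟩
    rcases lt_trichotomy σ 0 with h0 | h0 | h0
    · obtain ⟨b1, b2⟩ := hb (σ * t + β - ⌊σ * t + β⌋) (by linarith [Int.floor_le (σ * t + β)])
        (by linarith [Int.lt_floor_add_one (σ * t + β)])
      refine ⟨⌊σ * t + β⌋, _, b1, b2, ?_⟩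
      rw [abs_of_neg h0]
      have := h0.ne
      field_simp
      ring
    · rw [h0, abs_zero] at hσ1; linarith
    · obtain ⟨b1, b2⟩ := hb (⌈σ * t + β⌉ - (σ * t + β)) (by linarith [Int.le_ceil (σ * t + β)])
        (by linarith [Int.ceil_lt_add_one (σ * t + β)])
      refine ⟨⌈σ * t + β⌉, _, b1, b2, ?_⟩
      rw [abs_of_pos h0]
      have := h0.ne'
      field_simp
      ring
  obtain ⟨z, u, u0, u1, hz⟩ := key
  refine ⟨t + u, by linarith, by linarith, fun _ => ⟨z, fun s hs => ?_⟩⟩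
  have e : q k * (p1 + s * a + k * (p2 + s * b)) - θ - z
      = q k * ((a + k * b) * (s - (t + u))) := by
    rw [← hz, hσ, hβ]; ring
  rw [e]
  apply scale
  rw [abs_mul]
  have c1 : |a + k * b| ≤ k + 1 := by
    refine (abs_add_le _ _).trans ?_
    rw [abs_mul, Nat.abs_cast]
    have : (k : ℝ) * |b| ≤ k * 1 := by gcongr
    linarith
  have c2 : |s - (t + u)| ≤ 1 / H (k + 1) := by
    rw [abs_of_nonneg (by linarith [hs.1])]; linarith [hs.2]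
  gcongr

lemma nested (p1 p2 a b θ : ℝ) (ha : |a| ≤ 1) (hb : |b| ≤ 1) (k0 : ℕ) (t0 : ℝ) :
    ∃ s ∈ Icc t0 (t0 + 1 / H k0), ∀ k, k0 ≤ k → 1 / (D k : ℝ) ≤ |a + k * b| →
      ∃ z : ℤ, |q k * (p1 + s * a + k * (p2 + s * b)) - θ - z| ≤ 1 / D k := by
  choose f hf using step p1 p2 a b θ ha hb
  let T : ℕ → ℝ := fun j => Nat.rec t0 (fun j t => f (k0 + j) t) j
  have hT : ∀ j, T (j + 1) = f (k0 + j) (T j) := fun j => rfl
  obtain ⟨s, hs⟩ := IsCompact.nonempty_iInter_of_sequence_nonempty_isCompact_isClosed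
    (fun j => Icc (T j) (T j + 1 / H (k0 + j)))
    (fun j => by
      obtain ⟨h1, h2, -⟩ := hf (k0 + j) (T j)
      exact Icc_subset_Icc h1 h2)
    (fun j => nonempty_Icc.2 (by have := H_pos (k0 + j); simp))
    isCompact_Icc (fun j => isClosed_Icc)
  rw [mem_iInter] at hs
  refine ⟨s, hs 0, fun k hk h => ?_⟩
  obtain ⟨j, rfl⟩ := Nat.exists_eq_add_of_le hk
  obtain ⟨z, hz⟩ := (hf (k0 + j) (T j)).2.2 h
  exact ⟨z, hz s (hs (j + 1))⟩

def Cond (k : ℕ) (v : ℝ × ℝ) : Prop := ∃ z : ℤ, |q k * (v.1 + k * v.2) - z| ≤ 1 / D k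

lemma cond_closed (k : ℕ) : IsClosed {v | Cond k v} := by
  have : {v | Cond k v} = (fun v : ℝ × ℝ => ‖((q k * (v.1 + k * v.2) : ℝ) : AddCircle (1 : ℝ))‖)
      ⁻¹' Iic (1 / D k) := by
    ext v
    simp only [Cond, mem_ofPred_eq, mem_preimage, mem_Iic, UnitAddCircle.norm_eq]
    exact ⟨fun ⟨z, hz⟩ => (round_le _ z).trans hz, fun h => ⟨_, h⟩⟩
  rw [this]
  refine isClosed_Iic.preimage (continuous_norm.comp ((AddCircle.continuous_mk' 1).comp ?_))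
  fun_prop

def K0 : Set (ℝ × ℝ) :=
  Q ∩ ⋂ (i : ℕ) (j : ℕ) (k : ℕ) (_ : i < j ∧ j < k), ({v | Cond i v} ∪ {v | Cond j v} ∪ {v | Cond k v})

lemma K0_compact : IsCompact K0 :=
  (isCompact_Icc.prod isCompact_Icc).inter_right <| isClosed_iInter fun i => isClosed_iInter
    fun j => isClosed_iInter fun k => isClosed_iInter fun _ =>
      ((cond_closed i).union (cond_closed j)).union (cond_closed k)

lemma mem_K0 {v : ℝ × ℝ} (hv : v ∈ Q) (e1 e2 : ℕ) (h : ∀ k, k ≠ e1 → k ≠ e2 → Cond k v) :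
    v ∈ K0 := by
  refine ⟨hv, ?_⟩
  simp only [mem_iInter]
  intro i j k hijk
  by_cases h1 : i ≠ e1 ∧ i ≠ e2
  · exact Or.inl (Or.inl (h i h1.1 h1.2))
  by_cases h2 : j ≠ e1 ∧ j ≠ e2
  · exact Or.inl (Or.inr (h j h2.1 h2.2))
  exact Or.inr (h k (by omega) (by omega))

lemma one_exc {a b : ℝ} (h : |a| = 1 ∨ |b| = 1) :
    ∃ e : ℕ, ∀ k, k ≠ e → 1 / (D k : ℝ) ≤ |a + k * b| := by
  have key : ∀ i j : ℕ, i < j → |a + i * b| < 1 / D i → |a + j * b| < 1 / D j → False := by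
    intro i j hij h1 h2
    have hi : (0 : ℝ) ≤ i := Nat.cast_nonneg i
    have hj : (i : ℝ) + 1 ≤ j := by exact_mod_cast hij
    have h3 : 1 / (D j : ℝ) ≤ 1 / D i :=
      one_div_le_one_div_of_le (D_pos i) (by rw [D_cast, D_cast]; linarith)
    set c := 1 / (D i : ℝ) with hc
    have hc1 : c * (8 * (i + 1)) = 1 := by rw [hc, ← D_cast]; have := D_pos i; field_simp
    have hc0 : 0 < c := by have := D_pos i; positivity
    have h4 : ((j : ℝ) - i) * |b| < 2 * c := by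
      have : ((j : ℝ) - i) * |b| = |(a + j * b) - (a + i * b)| := by
        rw [show (a + j * b) - (a + i * b) = (j - i) * b by ring, abs_mul,
          abs_of_nonneg (by linarith : (0 : ℝ) ≤ j - i)]
      rw [this]
      linarith [abs_sub (a + j * b) (a + i * b)]
    have h5 : |b| < 2 * c := by nlinarith [abs_nonneg b]
    have h6 : |a| ≤ |a + i * b| + i * |b| := by
      have := abs_sub (a + i * b) (i * b)
      rwa [add_sub_cancel_right, abs_mul, Nat.abs_cast] at this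
    rcases h with h | h <;> nlinarith [abs_nonneg b]
  by_cases hex : ∃ e : ℕ, |a + e * b| < 1 / D e
  · obtain ⟨e, he⟩ := hex
    refine ⟨e, fun k hk => not_lt.1 fun h' => ?_⟩
    rcases lt_or_gt_of_ne hk with h1 | h1
    · exact key k e h1 h' he
    · exact key e k h1 he h'
  · push Not at hex
    exact ⟨0, fun k _ => hex k⟩

lemma coord (p a : ℝ) (ha0 : a ≠ 0) (ha : |a| ≤ 1) : ∃ (s0 s1 : ℝ) (c0 c1 : ℤ),
    (∀ t, p + t * a ∈ Icc (0 : ℝ) 1 ↔ t ∈ Icc s0 s1) ∧ 1 ≤ s1 - s0 ∧ p + s0 * a = c0 ∧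
      p + s1 * a = c1 := by
  rcases lt_or_gt_of_ne ha0 with h | h
  · rw [abs_of_neg h] at ha
    have h' : 0 < -a := by linarith
    refine ⟨(p - 1) / (-a), p / (-a), 1, 0, fun t => ?_, ?_, ?_, ?_⟩
    · rw [mem_Icc, mem_Icc, div_le_iff₀ h', le_div_iff₀ h']
      constructor <;> rintro ⟨h1, h2⟩ <;> constructor <;> linarith
    · rw [← sub_div, le_div_iff₀ h']; linarith
    · field_simp; push_cast; ring
    · field_simp; push_cast; ring
  · rw [abs_of_pos h] at ha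
    refine ⟨(-p) / a, (1 - p) / a, 0, 1, fun t => ?_, ?_, ?_, ?_⟩
    · rw [mem_Icc, mem_Icc, div_le_iff₀ h, le_div_iff₀ h]
      constructor <;> rintro ⟨h1, h2⟩ <;> constructor <;> linarith
    · rw [← sub_div, le_div_iff₀ h]; linarith
    · field_simp; push_cast; ring
    · field_simp; push_cast; ring

lemma near {p a s t l : ℝ} {c : ℤ} (ha : |a| ≤ 1) (hc : p + s * a = c) (ht : |t - s| ≤ l) :
    |p + t * a - c| ≤ l := by
  rw [← hc, show p + t * a - (p + s * a) = (t - s) * a by ring, abs_mul]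
  calc |t - s| * |a| ≤ |t - s| * 1 := by gcongr
    _ ≤ l := by linarith

lemma geom (p1 p2 a b : ℝ) (ha : |a| ≤ 1) (hb : |b| ≤ 1) (h : |a| = 1 ∨ |b| = 1) (t : ℝ)
    (h1 : p1 + t * a ∈ Icc (0 : ℝ) 1) (h2 : p2 + t * b ∈ Icc (0 : ℝ) 1) :
    ∃ (t0 l : ℝ) (c1 c2 : ℤ), 0 ≤ l ∧ ∀ s ∈ Icc t0 (t0 + l), p1 + s * a ∈ Icc (0 : ℝ) 1 ∧
      p2 + s * b ∈ Icc (0 : ℝ) 1 ∧ |p1 + s * a - c1| ≤ l ∧ |p2 + s * b - c2| ≤ l := by
  have big : ∀ t0 t1 : ℝ, 1 ≤ t1 - t0 → (∀ s ∈ Icc t0 t1, p1 + s * a ∈ Icc (0 : ℝ) 1 ∧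
      p2 + s * b ∈ Icc (0 : ℝ) 1) → ∃ (t0 l : ℝ) (c1 c2 : ℤ), 0 ≤ l ∧ ∀ s ∈ Icc t0 (t0 + l),
      p1 + s * a ∈ Icc (0 : ℝ) 1 ∧ p2 + s * b ∈ Icc (0 : ℝ) 1 ∧ |p1 + s * a - c1| ≤ l ∧
      |p2 + s * b - c2| ≤ l := by
    intro t0 t1 hl hs
    refine ⟨t0, t1 - t0, 0, 0, by linarith, fun s hs' => ?_⟩
    obtain ⟨a1, a2⟩ := hs s ⟨hs'.1, by linarith [hs'.2]⟩
    refine ⟨a1, a2, ?_, ?_⟩
    · rw [Int.cast_zero, sub_zero, abs_of_nonneg a1.1]; linarith [a1.2]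
    · rw [Int.cast_zero, sub_zero, abs_of_nonneg a2.1]; linarith [a2.2]
  by_cases ha0 : a = 0
  · have hb0 : b ≠ 0 := by
      rintro rfl
      simp [ha0] at h
    obtain ⟨r0, r1, d0, d1, e1, e2, -, -⟩ := coord p2 b hb0 hb
    refine big r0 r1 e2 fun s hs => ⟨?_, (e1 s).2 hs⟩
    simpa [ha0] using h1
  by_cases hb0 : b = 0
  · obtain ⟨r0, r1, d0, d1, e1, e2, -, -⟩ := coord p1 a ha0 ha
    refine big r0 r1 e2 fun s hs => ⟨(e1 s).2 hs, ?_⟩
    simpa [hb0] using h2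
  obtain ⟨s0, s1, c0, c1, f1, f2, f3, f4⟩ := coord p1 a ha0 ha
  obtain ⟨r0, r1, d0, d1, e1, e2, e3, e4⟩ := coord p2 b hb0 hb
  have g1 := (f1 t).1 h1
  have g2 := (e1 t).1 h2
  rcases le_total s0 r0 with k0 | k0 <;> rcases le_total s1 r1 with k1 | k1
  · refine ⟨r0, s1 - r0, c1, d0, by linarith [g1.2, g2.1], fun s hs => ?_⟩
    refine ⟨(f1 s).2 ⟨by linarith [hs.1], by linarith [hs.2]⟩,
      (e1 s).2 ⟨by linarith [hs.1], by linarith [hs.2]⟩, near ha f4 ?_, near hb e3 ?_⟩ <;>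
    · rw [abs_le]; constructor <;> linarith [hs.1, hs.2]
  · exact big r0 r1 e2 fun s hs => ⟨(f1 s).2 ⟨by linarith [hs.1], by linarith [hs.2]⟩, (e1 s).2 hs⟩
  · exact big s0 s1 f2 fun s hs => ⟨(f1 s).2 hs, (e1 s).2 ⟨by linarith [hs.1], by linarith [hs.2]⟩⟩
  · refine ⟨s0, r1 - s0, c0, d1, by linarith [g1.1, g2.2], fun s hs => ?_⟩
    refine ⟨(f1 s).2 ⟨by linarith [hs.1], by linarith [hs.2]⟩,
      (e1 s).2 ⟨by linarith [hs.1], by linarith [hs.2]⟩, near ha f3 ?_, near hb e4 ?_⟩ <;>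
    · rw [abs_le]; constructor <;> linarith [hs.1, hs.2]

lemma auto {x y l : ℝ} {c1 c2 : ℤ} (h1 : |x - c1| ≤ l) (h2 : |y - c2| ≤ l) (k : ℕ)
    (hl : l ≤ 1 / H (k + 1)) : Cond k (x, y) := by
  refine ⟨q k * (c1 + k * c2), ?_⟩
  have e : (q k : ℝ) * (x + k * y) - ((q k * (c1 + k * c2) : ℤ) : ℝ)
      = q k * ((x - c1) + k * (y - c2)) := by push_cast; ring
  show |(q k : ℝ) * (x + k * y) - _| ≤ _
  rw [e]
  apply scale
  refine (abs_add_le _ _).trans ?_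
  rw [abs_mul, Nat.abs_cast]
  have : (k : ℝ) * |y - c2| ≤ k * (1 / H (k + 1)) := by gcongr; linarith
  linarith

lemma meets (p1 p2 a b : ℝ) (ha : |a| ≤ 1) (hb : |b| ≤ 1) (h : |a| = 1 ∨ |b| = 1) (t : ℝ)
    (h1 : p1 + t * a ∈ Icc (0 : ℝ) 1) (h2 : p2 + t * b ∈ Icc (0 : ℝ) 1) :
    ∃ s : ℝ, (p1 + s * a, p2 + s * b) ∈ K0 := by
  classical
  obtain ⟨t0, l, c1, c2, hl, hs⟩ := geom p1 p2 a b ha hb h t h1 h2
  rcases hl.eq_or_lt with rfl | hl
  · obtain ⟨a1, a2, a3, a4⟩ := hs t0 ⟨le_rfl, by simp⟩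
    exact ⟨t0, mem_K0 ⟨a1, a2⟩ 0 0 fun k _ _ => auto a3 a4 k (by positivity)⟩
  have hex := small l hl
  obtain ⟨s, hs1, hs2⟩ := nested p1 p2 a b 0 ha hb (Nat.find hex) t0
  obtain ⟨e, he⟩ := one_exc h
  obtain ⟨a1, a2, a3, a4⟩ := hs s ⟨hs1.1, by linarith [hs1.2, Nat.find_spec hex]⟩
  refine ⟨s, mem_K0 ⟨a1, a2⟩ e (Nat.find hex - 1) fun k k1 k2 => ?_⟩
  rcases le_or_gt (Nat.find hex) k with h3 | h3
  · obtain ⟨z, hz⟩ := hs2 k h3 (he k k1)
    exact ⟨z, by simpa using hz⟩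
  · exact auto a3 a4 k (not_le.1 (Nat.find_min hex (by omega))).le

lemma few {v : ℝ × ℝ} (hv : v ∈ K0) (S : Finset ℕ) (hS : ∀ k ∈ S, ¬ Cond k v) : S.card ≤ 2 := by
  by_contra hc
  have h := hv.2
  simp only [mem_iInter] at h
  have key : ∀ i ∈ S, ∀ j ∈ S, ∀ k ∈ S, i < j → j < k → False := fun i hi j hj k hk a b => by
    rcases h i j k ⟨a, b⟩ with (h | h) | h
    exacts [hS i hi h, hS j hj h, hS k hk h]
  obtain ⟨i, j, k, hi, hj, hk, a, b, c⟩ := Finset.two_lt_card_iff.1 (not_le.1 hc)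
  rcases lt_or_gt_of_ne a with a | a <;> rcases lt_or_gt_of_ne b with b | b <;>
    rcases lt_or_gt_of_ne c with c | c
  exacts [key i hi j hj k hk a c, key i hi k hk j hj b c, by omega, key k hk i hi j hj b a,
    key j hj i hi k hk a b, by omega, key j hj k hk i hi c b, key k hk j hj i hi c a]

lemma nwd (l : ℕ) : IsNowhereDense (sumset l K0) := by
  classical
  have hc : IsCompact (sumset l K0) := by
    have : sumset l K0 = (fun x : Fin l → ℝ × ℝ => ∑ i, x i) '' (Set.pi univ fun _ => K0) := by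
      ext v
      constructor
      · rintro ⟨x, hx, rfl⟩; exact ⟨x, fun i _ => hx i, rfl⟩
      · rintro ⟨x, hx, rfl⟩; exact ⟨x, fun i => hx i trivial, rfl⟩
    rw [this]
    exact (isCompact_univ_pi fun _ => K0_compact).image (by fun_prop)
  rw [hc.isClosed.isNowhereDense_iff, eq_empty_iff_forall_notMem]
  intro p hp
  obtain ⟨r, hr, hball⟩ := Metric.mem_nhds_iff.1 (mem_interior_iff_mem_nhds.1 hp)
  obtain ⟨k1, hk1⟩ := small (r / 2) (by linarith)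
  have hk0 : 1 / (H (k1 + l) : ℝ) ≤ r / 2 := (anti (Nat.le_add_right k1 l)).trans hk1
  obtain ⟨s, hs1, hs2⟩ := nested p.1 p.2 1 0 (1 / 2) (by simp) (by simp) (k1 + l) 0
  obtain ⟨x, hx, hsum⟩ := hball (show (p.1 + s, p.2) ∈ Metric.ball p r by
    rw [Metric.mem_ball, Prod.dist_eq, dist_self, Real.dist_eq, add_sub_cancel_left,
      abs_of_nonneg hs1.1]
    exact max_lt (by linarith [hs1.2]) hr)
  have hk : ∃ k ∈ Finset.Icc (k1 + l) (k1 + l + 2 * l), ∀ i, Cond k (x i) := by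
    by_contra hcon
    push Not at hcon
    have hsub : Finset.Icc (k1 + l) (k1 + l + 2 * l) ⊆ Finset.univ.biUnion fun i =>
        (Finset.Icc (k1 + l) (k1 + l + 2 * l)).filter fun k => ¬ Cond k (x i) := by
      intro k hk
      obtain ⟨i, hi⟩ := hcon k hk
      exact Finset.mem_biUnion.2 ⟨i, Finset.mem_univ _, Finset.mem_filter.2 ⟨hk, hi⟩⟩
    have h1 := (Finset.card_le_card hsub).trans (Finset.card_biUnion_le_card_mul _ _ 2
      fun i _ => few (hx i) _ fun k hk => (Finset.mem_filter.1 hk).2)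
    simp at h1
    omega
  obtain ⟨k, hk, hC⟩ := hk
  have hk' := (Finset.mem_Icc.1 hk).1
  have hD := D_pos k
  obtain ⟨z0, hz0⟩ := hs2 k hk' (by
    have := D_ge k
    simp only [mul_zero, add_zero, abs_one]
    rw [div_le_one hD]; linarith)
  choose z hz using hC
  have e1 : p.1 + s = ∑ i, (x i).1 := by simpa [Prod.fst_sum] using congrArg Prod.fst hsum
  have e2 : p.2 = ∑ i, (x i).2 := by simpa [Prod.snd_sum] using congrArg Prod.snd hsum
  have h1 : |q k * (p.1 + s + k * p.2) - ((∑ i, z i : ℤ) : ℝ)| ≤ l * (1 / D k) := by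
    have : q k * (p.1 + s + k * p.2) - ((∑ i, z i : ℤ) : ℝ)
        = ∑ i, (q k * ((x i).1 + k * (x i).2) - z i) := by
      rw [e1, e2]
      push_cast
      simp only [Finset.sum_sub_distrib, mul_add, Finset.sum_add_distrib, Finset.mul_sum]
    rw [this]
    refine (Finset.abs_sum_le_sum_abs _ _).trans ?_
    simpa using Finset.sum_le_card_nsmul Finset.univ _ _ fun i _ => hz i
  have h2 : ((l : ℝ) + 1) * (1 / D k) ≤ 1 / 8 := by
    have : (l : ℝ) ≤ k := by exact_mod_cast (by omega : l ≤ k)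
    rw [mul_one_div, div_le_iff₀ hD, D_cast]; linarith
  simp only [mul_one, mul_zero, add_zero] at hz0
  rw [abs_le] at h1 hz0
  have h3 : ((2 * (∑ i, z i - z0) : ℤ) : ℝ) < (2 : ℤ) := by
    push_cast at h1 ⊢; linarith [h1.1, h1.2, hz0.1, hz0.2]
  have h4 : ((0 : ℤ) : ℝ) < ((2 * (∑ i, z i - z0) : ℤ) : ℝ) := by
    push_cast at h1 ⊢; linarith [h1.1, h1.2, hz0.1, hz0.2]
  rw [Int.cast_lt] at h3 h4
  omega

theorem result : ∃ K : Set (ℝ × ℝ), IsCompact K ∧ K ⊆ Q ∧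
    (∀ p w : ℝ × ℝ, w ≠ 0 → (∃ t : ℝ, p + t • w ∈ Q) → ∃ t : ℝ, p + t • w ∈ K) ∧
    ∀ l : ℕ, 1 ≤ l → IsNowhereDense (sumset l K) := by
  refine ⟨K0, K0_compact, inter_subset_left, ?_, fun l _ => nwd l⟩
  rintro p w hw ⟨t, ht1, ht2⟩
  have hr : 0 < ‖w‖ := norm_pos_iff.2 hw
  have h1 : |w.1| ≤ ‖w‖ := norm_fst_le w
  have h2 : |w.2| ≤ ‖w‖ := norm_snd_le w
  have h3 : |w.1| = ‖w‖ ∨ |w.2| = ‖w‖ := by
    rcases max_choice ‖w.1‖ ‖w.2‖ with h | h
    · exact Or.inl h.symm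
    · exact Or.inr h.symm
  have e : ∀ y : ℝ, t * ‖w‖ * (y / ‖w‖) = t * y := fun y => by field_simp
  obtain ⟨s, hs⟩ := meets p.1 p.2 (w.1 / ‖w‖) (w.2 / ‖w‖)
    (by rw [abs_div, abs_of_pos hr, div_le_one hr]; exact h1)
    (by rw [abs_div, abs_of_pos hr, div_le_one hr]; exact h2)
    (by simpa only [abs_div, abs_of_pos hr, div_eq_one_iff_eq hr.ne'] using h3)
    (t * ‖w‖) (by rw [e]; exact ht1) (by rw [e]; exact ht2)
  refine ⟨s / ‖w‖, ?_⟩
  convert hs using 1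
  ext <;> simp <;> ring

end Pool.Agent.Results.MP_ca1982_an.Exists
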